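import Pool.Agent.Results.MP_db9079_lc.ProjectiveSets
import Pool.Agent.H87F.Chs
import Pool.Agent.H87F.Gaps

/-!
# MP_db9079_lc: elementary subfields of F_p((t)), and uniform finiteness

Write `K` for the field `F_p((t))`, with the valuation or with any other unary predicate `P`, and
`Tame` for the conclusions of the starting result `UniformFiniteness`.  It is an open question
whether the henselization of `F_p(t)`, the field of all elements of `K` which are algebraic over
`F_p(t)`, is an elementary substructure of the valued field `K`.  Here we prove: if `(K, P)` has an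
elementary substructure which is algebraic over `F_p(t)` and contains `t`, then it is tame.

Proof.  If `(K, P)` is not tame then there are formulas which define, for suitable values of their
parameters, full second-order arithmetic on the set `{1, t, t ^ 2, ...}` (see
`SecondOrderArithmetic`).  The suitable values are definable from `t`, and so for each set `A` of
numbers which is definable in second-order arithmetic the series `∑ t ^ k`, `k ∈ A`, is definable
from `t`, and is in each elementary substructure which contains `t`.  For the set of the numbers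
`2 ^ (2 ^ k)` this series is transcendental over `F_p(t)`.
-/

set_option autoImplicit false

namespace Pool.Agent.Results.MP_db9079_lc.ElementarySubfields

open Pool.Agent.Y924.EL
open Pool.Agent.Results.MP_db9079_lc.UniformFiniteness
open Pool.Agent.H87F
open Function

/-- the subfield `L` of `F_p((t))` is an elementary substructure of the field `F_p((t))` with the
unary predicate `P` -/
def Elementary (p : ℕ) [Fact p.Prime] (P : Set (LaurentSeries (ZMod p)))
    (L : Subfield (LaurentSeries (ZMod p))) : Prop :=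
  ∀ (φ : Fm) (v : ℕ → L),
    Sat {x : L | (x : LaurentSeries (ZMod p)) ∈ P} φ v ↔
      Sat P φ fun i => (v i : LaurentSeries (ZMod p))

/-- the set `A` of natural numbers is definable in full second-order arithmetic -/
def Analytical (A : Set ℕ) : Prop :=
  ∃ α : Fm2, ∀ (x : ℕ → ℕ) (X : ℕ → Set ℕ), Sat2 α x X ↔ x 0 ∈ A

variable {p : ℕ} [hp : Fact p.Prime]

open Pool.Agent.Y924.UF (tt)

theorem chr_mem {P : Set (LaurentSeries (ZMod p))} (h : ¬ Tame p P)
    {L : Subfield (LaurentSeries (ZMod p))} (hT : tt p ∈ L) (hL : Elementary p P L)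
    {A : Set ℕ} (hA : Analytical A) : chr A ∈ L := by
  obtain ⟨φ, hφ⟩ := chr_def (ProjectiveSets.isT_of_not_tame h) hA
  have h1 : Sat P (.ex 0 φ) fun _ : ℕ => ((⟨tt p, hT⟩ : L) : LaurentSeries (ZMod p)) := by
    refine ⟨chr A, (hφ _ ?_).2 ?_⟩
    · rw [update_of_ne one_ne_zero]
    · rw [update_self]
  obtain ⟨a, ha⟩ := (hL (.ex 0 φ) fun _ => ⟨tt p, hT⟩).2 h1
  have h2 := (hL φ _).1 ha
  have h3 := (hφ _ ?_).1 h2
  · have h4 : (a : LaurentSeries (ZMod p)) = chr A := by
      rw [← h3, update_self]
    rw [← h4]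
    exact a.2
  · rw [update_of_ne one_ne_zero]

theorem C_mem (L : Subfield (LaurentSeries (ZMod p))) (c : ZMod p) :
    (HahnSeries.C c : LaurentSeries (ZMod p)) ∈ L := by
  have h : (HahnSeries.C c : LaurentSeries (ZMod p)) = (c.val : LaurentSeries (ZMod p)) := by
    conv_lhs => rw [← ZMod.natCast_zmod_val c]
    rw [map_natCast]
  rw [h]
  exact natCast_mem L _

theorem coeff_chr_nat (A : Set ℕ) (k : ℕ) [Decidable (k ∈ A)] :
    (chr (p := p) A).coeff k = if k ∈ A then 1 else 0 := by
  classical
  unfold chr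
  rw [ser_coeff]
  congr

theorem coeff_chr_neg (A : Set ℕ) (n : ℤ) (hn : n < 0) : (chr (p := p) A).coeff n = 0 := by
  classical
  unfold chr
  exact ser_neg _ n hn

/-- Laurent polynomials in `1 / t` -/
theorem polar_mem {L : Subfield (LaurentSeries (ZMod p))} (hT : tt p ∈ L)
    {y : LaurentSeries (ZMod p)} (hy : ∀ k : ℕ, y.coeff k = 0) : y ∈ L := by
  obtain ⟨m, hm⟩ : ∃ m : ℕ, ∀ n : ℤ, n < -m → y.coeff n = 0 := by
    refine ⟨(-y.order).toNat, fun n hn => HahnSeries.coeff_eq_zero_of_lt_order ?_⟩
    omega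
  have key : y = ∑ j ∈ Finset.range m, HahnSeries.single (-((j : ℤ) + 1)) (y.coeff (-((j : ℤ) + 1)))
      := by
    ext n
    rw [HahnSeries.coeff_sum]
    by_cases h : ∃ j < m, n = -((j : ℤ) + 1)
    · obtain ⟨j, hj, rfl⟩ := h
      rw [Finset.sum_eq_single j]
      · rw [HahnSeries.coeff_single_same]
      · intro i _ hi
        rw [HahnSeries.coeff_single_of_ne]
        intro h
        apply hi
        omega
      · intro hj'
        exact absurd (Finset.mem_range.2 hj) hj'
    · rw [Finset.sum_eq_zero]
      · rcases lt_or_ge n 0 with hn | hn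
        · refine hm n ?_
          by_contra hc
          exact h ⟨(-n - 1).toNat, by omega, by omega⟩
        · obtain ⟨k, rfl⟩ := Int.eq_ofNat_of_zero_le hn
          exact hy k
      · intro j hj
        rw [HahnSeries.coeff_single_of_ne]
        intro h'
        exact h ⟨j, Finset.mem_range.1 hj, h'⟩
  rw [key]
  refine sum_mem fun j _ => ?_
  have h1 : (HahnSeries.single (-((j : ℤ) + 1)) (y.coeff (-((j : ℤ) + 1))) :
      LaurentSeries (ZMod p)) = HahnSeries.C (y.coeff (-((j : ℤ) + 1))) * (tt p ^ (j + 1))⁻¹ := by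
    rw [eq_mul_inv_iff_mul_eq₀ (pow_ne_zero _ tt_ne)]
    unfold tt
    rw [HahnSeries.single_pow, HahnSeries.single_mul_single, one_pow, mul_one, nsmul_eq_mul,
      mul_one]
    push_cast
    rw [neg_add_cancel]
    rfl
  rw [h1]
  exact L.mul_mem (C_mem L _) (L.inv_mem (L.pow_mem hT _))

/-- series with analytical coefficients -/
theorem series_mem {P : Set (LaurentSeries (ZMod p))} (h : ¬ Tame p P)
    {L : Subfield (LaurentSeries (ZMod p))} (hT : tt p ∈ L) (hL : Elementary p P L)
    {x : LaurentSeries (ZMod p)} (hx : ∀ c : ZMod p, Analytical {k : ℕ | x.coeff k = c}) :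
    x ∈ L := by
  classical
  have h1 : ∑ c : ZMod p, HahnSeries.C c * chr {k : ℕ | x.coeff k = c} ∈ L :=
    sum_mem fun c _ => L.mul_mem (C_mem L c) (chr_mem h hT hL (hx c))
  have h2 : x - ∑ c : ZMod p, HahnSeries.C c * chr {k : ℕ | x.coeff k = c} ∈ L := by
    refine polar_mem hT fun k => ?_
    rw [HahnSeries.coeff_sub, HahnSeries.coeff_sum]
    simp only [HahnSeries.C_mul_eq_smul, HahnSeries.coeff_smul, coeff_chr_nat, smul_eq_mul,
      Set.mem_setOf_eq, mul_ite, mul_one, mul_zero]
    rw [Finset.sum_ite_eq Finset.univ (x.coeff k) fun c => c, if_pos (Finset.mem_univ _), sub_self]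
  have h3 := L.add_mem h2 h1
  rwa [sub_add_cancel] at h3

/-- `2 ∈ X_0` -/
def fTwo : Fm2 := .exN 1 (.exN 2 (.and (.one 1) (.and (.add 1 1 2) (.mem 2 0))))

/-- `X_0` is closed under squares -/
def fSq : Fm2 := .neg (.exN 1 (.exN 2 (.and (.and (.mem 1 0) (.mul 1 1 2)) (.neg (.mem 2 0)))))

theorem gap_analytical : Analytical gapSet := by
  refine ⟨.neg (.exS 0 (.and (.and fTwo fSq) (.neg (.mem 0 0)))), fun x X => ?_⟩
  have h1 : ∀ A : Set ℕ, Sat2 fTwo x (update X 0 A) ↔ 2 ∈ A := by
    intro A
    simp only [fTwo, Sat2, update_self, ne_eq, OfNat.ofNat_ne_one, OfNat.one_ne_ofNat,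
      not_false_eq_true, update_of_ne]
    constructor
    · rintro ⟨a, b, rfl, rfl, h⟩
      exact h
    · intro h
      exact ⟨1, 2, rfl, rfl, h⟩
  have h2 : ∀ A : Set ℕ, Sat2 fSq x (update X 0 A) ↔ ∀ a ∈ A, a * a ∈ A := by
    intro A
    simp only [fSq, Sat2, update_self, ne_eq, OfNat.ofNat_ne_one, OfNat.one_ne_ofNat,
      not_false_eq_true, update_of_ne]
    push Not
    constructor
    · intro h a ha
      exact h a (a * a) ⟨ha, rfl⟩
    · rintro h a b ⟨ha, rfl⟩
      exact h a ha
  show ¬ (∃ A : Set ℕ, (Sat2 fTwo x (update X 0 A) ∧ Sat2 fSq x (update X 0 A)) ∧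
    ¬ (x 0 ∈ update X 0 A 0)) ↔ _
  simp only [h1, h2, update_self]
  push Not
  constructor
  · intro h
    refine h gapSet ⟨⟨0, by norm_num⟩, ?_⟩
    rintro a ⟨k, rfl⟩
    refine ⟨k + 1, ?_⟩
    rw [← pow_add, ← two_mul, ← pow_succ']
  · rintro ⟨k, hk⟩ A ⟨hA, hA'⟩
    rw [hk]
    clear hk
    induction k with
    | zero => exact hA
    | succ k ih =>
      have h3 := hA' _ ih
      rwa [← pow_add, ← two_mul, ← pow_succ'] at h3

theorem chr_gap_not_algebraic :
    ¬ IsAlgebraic (Polynomial (ZMod p)) (chr (p := p) gapSet) := by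
  classical
  intro h
  obtain ⟨f, hf, h0⟩ := h
  refine gap_transc f hf ?_
  have h1 : chr (p := p) gapSet = HahnSeries.ofPowerSeries ℤ (ZMod p) (gapSer (ZMod p)) := by
    unfold chr ser gapSer
    congr
  rw [h1] at h0
  apply HahnSeries.ofPowerSeries_injective (Γ := ℤ) (R := ZMod p)
  rw [map_zero, ← h0, Polynomial.aeval_def, Polynomial.eval_map, Polynomial.hom_eval₂]
  rfl

/-- Let the subfield `L` of `F_p((t))` be an elementary substructure of `F_p((t))` with the unary
predicate `P`, `t ∈ L`. Then `F_p((t))` with the predicate `P` is tame, or `L` contains all Laurent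
series with analytical coefficients and is not algebraic over `F_p[t]`, or what is the same, over
`F_p(t)`. -/
theorem result (p : ℕ) [Fact p.Prime] (P : Set (LaurentSeries (ZMod p)))
    (L : Subfield (LaurentSeries (ZMod p))) (hT : HahnSeries.single (1 : ℤ) (1 : ZMod p) ∈ L)
    (hL : Elementary p P L) :
    Tame p P ∨ ((∀ x : LaurentSeries (ZMod p),
      (∀ c : ZMod p, Analytical {k : ℕ | x.coeff k = c}) → x ∈ L) ∧
      ¬ ∀ x ∈ L, IsAlgebraic (Polynomial (ZMod p)) x) := by
  by_cases h : Tame p P
  · exact Or.inl h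
  · exact Or.inr ⟨fun x hx => series_mem h hT hL hx, fun halg =>
      chr_gap_not_algebraic (halg _ (chr_mem h hT hL gap_analytical))⟩

end Pool.Agent.Results.MP_db9079_lc.ElementarySubfields
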