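import Pool.Agent.Results.MP_db9079_lc.LocallyFiniteValues
import Pool.Agent.H87F.Proj

/-!
# MP_db9079_lc: without uniform finiteness all projective sets are definable in F_p((t))

Write `K` for the field `F_p((t))`, with the valuation or with any other unary predicate `P`, and
`Tame` for the conclusions of the starting result `UniformFiniteness`: the finite sets in a
definable family have a bounded number of elements, and scattered definable sets are finite.  The
starting result says that true arithmetic is reducible to the theory of `(K, P)` if `(K, P)` is not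
tame.  Here we determine the definable sets in this case: all projective subsets of `K^n` are
definable (with parameters).  So there is a dichotomy: either `(K, P)` is tame, or every projective
set is definable (for instance if `P` is an infinite scattered set).  For the valued field itself
the definable sets are projective, so either the valued field `F_p((t))` is tame or its definable
sets are exactly the projective sets.

Proof.  Suppose that a definable family contains arbitrarily large finite sets `S`.  Then the
double annihilator `V` of `S` with respect to the residue pairing is a finite group, uniformly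
definable.  The polynomial `∏ (X - a)`, `a ∈ V`, has a constant derivative, so for `x ≠ 0` and
`c ≠ 0` the element `E_c(x) = ∑ 1 / (x - c a)` is a constant divided by `∏ (x - c a)`, and
`E_c(1) / E_c(x)` has the limit `x ^ |V|` for `c → 0`.  For small `c` the elements `1 / (x - c a)`
are linearly independent over `F_p`, and then their sum is characterized by its residue pairings
with the dual elements: it is definable.  So the power map `x ↦ x ^ q`, `q = |V|`, is uniformly
definable.  Its adjoint with respect to the residue pairing gives the components of an element of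
`K` in the decomposition of `K` into the spaces `t ^ i K ^ q`; this codes finite sequences of
elements of `K` (with the indices `t ^ q'`, where `q'` is a smaller number of the form `|V'|`) by
elements of `K`, and so the sequence `1, t, t ^ 2, ...` is definable.  Finally infinite sequences
of elements of `K` are coded by elements of `K` (by their digits), and a closed set is the closure
of a sequence.
-/

set_option autoImplicit false

namespace Pool.Agent.Results.MP_db9079_lc.ProjectiveSets

open Pool.Agent.Y924.EL
open Pool.Agent.Results.MP_db9079_lc.UniformFiniteness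
open Pool.Agent.Results.MP_db9079_lc.LocallyFiniteValues
open Function

section definitions

variable (p : ℕ) [Fact p.Prime]

/-- the projective subsets of the `K^n`, `K = F_p((t))` with the `t`-adic topology: the smallest
family of sets which contains the closed subsets of all `K^n` and which is closed under
complements, intersections of two sets and projections from `K^(n+1)` to `K^n` -/
inductive Projective : (n : ℕ) → Set (Fin n → LaurentSeries (ZMod p)) → Prop
  | closed {n : ℕ} {X : Set (Fin n → LaurentSeries (ZMod p))} : IsClosed X → Projective n X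
  | compl {n : ℕ} {X : Set (Fin n → LaurentSeries (ZMod p))} : Projective n X → Projective n Xᶜ
  | inter {n : ℕ} {X Y : Set (Fin n → LaurentSeries (ZMod p))} :
      Projective n X → Projective n Y → Projective n (X ∩ Y)
  | proj {n : ℕ} {X : Set (Fin (n + 1) → LaurentSeries (ZMod p))} : Projective (n + 1) X →
      Projective n {x | ∃ a, (Fin.snoc x a : Fin (n + 1) → LaurentSeries (ZMod p)) ∈ X}

/-- the subset `X` of `K^n` is definable, with parameters, in the field `F_p((t))` with the unary
predicate `P` -/
def Definable (P : Set (LaurentSeries (ZMod p))) (n : ℕ)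
    (X : Set (Fin n → LaurentSeries (ZMod p))) : Prop :=
  ∃ (φ : Fm) (v : ℕ → LaurentSeries (ZMod p)), X = DSet p P φ n v

/-- `t` -/
noncomputable def T : LaurentSeries (ZMod p) := HahnSeries.single (1 : ℤ) (1 : ZMod p)

end definitions

open Pool.Agent.H87F
open Pool.Agent.Y924.UF (tt)

variable {p : ℕ} [hp : Fact p.Prime]

theorem definable_iff {P : Set (LaurentSeries (ZMod p))} {n : ℕ} {X : Set (Fin n → (LaurentSeries (ZMod p)))} :
    Definable p P n X ↔ Dd P n X := by
  constructor
  · rintro ⟨φ, v, rfl⟩
    exact Dd.of_formula φ v fun x => Iff.rfl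
  · intro h
    obtain ⟨φ, u, h1⟩ := h.formula
    exact ⟨φ, u, Set.ext h1⟩

theorem isT_of_not_tame {P : Set (LaurentSeries (ZMod p))} (h : ¬ Tame p P) : Df1 P (isT (p := p)) := by
  have h1 : ¬ ∀ φ : Fm, ∃ N : ℕ, ∀ v, (Dfn p P φ v).Finite → (Dfn p P φ v).ncard ≤ N :=
    fun h2 => h (tame_of_uniform p P h2)
  push Not at h1
  obtain ⟨φ, hφ⟩ := h1
  exact wild_T φ hφ

theorem projective_definable {P : Set (LaurentSeries (ZMod p))} (h : ¬ Tame p P) {n : ℕ} {X : Set (Fin n → (LaurentSeries (ZMod p)))}
    (hX : Projective p n X) : Definable p P n X := by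
  rw [definable_iff]
  have hT := isT_of_not_tame h
  induction hX with
  | closed h => exact closed_dd hT h
  | compl _ ih => exact ih.compl
  | inter _ _ ih1 ih2 => exact ih1.inter ih2
  | proj _ ih => exact ih.proj

theorem closed_uniform {P : Set (LaurentSeries (ZMod p))} (h : ¬ Tame p P) (n : ℕ) :
    ∃ φ : Fm, ∀ X : Set (Fin n → (LaurentSeries (ZMod p))), IsClosed X → ∃ v, X = DSet p P φ n v := by
  obtain ⟨φ, hφ⟩ := Df.formula (df_cc (P := P) (isT_of_not_tame h) n) n
  refine ⟨φ, fun X hX => ?_⟩
  obtain ⟨w, hw⟩ := closed_code hX
  obtain ⟨u, hu⟩ := hφ w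
  exact ⟨u, Set.ext fun x => (hw x).symm.trans (hu x)⟩

/-! ### infinite discrete definable sets -/

theorem not_tame_of_scattered {P : Set (LaurentSeries (ZMod p))} {S : Set (LaurentSeries (ZMod p))} (hS : S.Infinite) (hd : Scattered p S)
    (h : Definable p P 1 {x | x 0 ∈ S}) : ¬ Tame p P := by
  intro ht
  obtain ⟨φ, v, h1⟩ := h
  have h2 : Dfn p P φ v = S := by
    ext x
    have h3 := Set.ext_iff.1 h1 (fun _ => x)
    have e : (fun i : ℕ => if h : i < 1 then (fun _ : Fin 1 => x) ⟨i, h⟩ else v i) =
        update v 0 x := by
      funext i
      by_cases hi : i = 0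
      · subst hi; simp
      · have : ¬ (i < 1) := by omega
        rw [update_of_ne hi, dif_neg this]
    change _ ↔ Sat P φ _ at h3
    rw [e] at h3
    exact h3.symm
  have h3 := ht.2 φ v (by rw [h2]; exact hd)
  rw [h2] at h3
  exact hS h3

theorem scattered_of (S : Set (LaurentSeries (ZMod p))) (b : (LaurentSeries (ZMod p)) → (LaurentSeries (ZMod p))) (hb : ∀ x ∈ S, b x ≠ 0)
    (h : ∀ x ∈ S, ∀ y ∈ S, Dv (b x) (y - x) → y = x) : Scattered p S := by
  intro T hT hne
  obtain ⟨x, hx⟩ := hne
  refine ⟨x, hx, b x, hb x (hT hx), fun y hy => ?_⟩
  rintro ⟨z, hz, h1⟩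
  exact h x (hT hx) y (hT hy) ⟨z, hz, by rw [← h1]; ring⟩

theorem powers_scattered : Scattered p {y : (LaurentSeries (ZMod p)) | ∃ k : ℕ, y = tt p ^ k} := by
  refine scattered_of _ (fun x => tt p * x) ?_ ?_
  · rintro x ⟨k, rfl⟩
    exact mul_ne_zero tt_ne (pow_ne_zero _ tt_ne)
  · rintro x ⟨a, rfl⟩ y ⟨b, rfl⟩ h
    by_contra hne
    have hab : a ≠ b := by
      rintro rfl
      exact hne rfl
    rw [dv_iff] at h
    have hva : (0 : (WithZero (Multiplicative ℤ))) < Valued.v (tt p ^ a) :=
      zero_lt_iff.2 ((Valuation.ne_zero_iff _).2 (pow_ne_zero _ tt_ne))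
    have hlt : (Valued.v (tt p * tt p ^ a) : (WithZero (Multiplicative ℤ))) < Valued.v (tt p ^ a) := by
      rw [map_mul]
      calc (Valued.v (tt p) : (WithZero (Multiplicative ℤ))) * Valued.v (tt p ^ a) < 1 * Valued.v (tt p ^ a) :=
            mul_lt_mul_of_pos_right v_tt_lt hva
        _ = _ := one_mul _
    rcases lt_or_gt_of_ne hab with h1 | h1
    · have h2 : (Valued.v (tt p ^ b) : (WithZero (Multiplicative ℤ))) < Valued.v (tt p ^ a) := by
        rw [← not_le, ← dv_iff, dv_tt]
        omega
      rw [Valuation.map_sub_eq_of_lt_right _ h2] at h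
      exact absurd h (not_le.2 hlt)
    · have h2 : (Valued.v (tt p ^ a) : (WithZero (Multiplicative ℤ))) < Valued.v (tt p ^ b) := by
        rw [← not_le, ← dv_iff, dv_tt]
        omega
      rw [Valuation.map_sub_eq_of_lt_left _ h2] at h
      exact absurd (h.trans hlt.le) (not_le.2 h2)

theorem powers_infinite : {y : (LaurentSeries (ZMod p)) | ∃ k : ℕ, y = tt p ^ k}.Infinite := by
  have h : {y : (LaurentSeries (ZMod p)) | ∃ k : ℕ, y = tt p ^ k} = Set.range fun k : ℕ => tt p ^ k := by
    ext y
    simp [eq_comm]
  rw [h]
  exact Set.infinite_range_of_injective fun a b h => tt_inj h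

/-! ### definable sets are projective -/

theorem Projective.pre {m : ℕ} {X : Set (Fin m → (LaurentSeries (ZMod p)))} (h : Projective p m X) :
    ∀ {n : ℕ} (τ : Fin m → Fin n), Projective p n {x | (fun i => x (τ i)) ∈ X} := by
  induction h with
  | closed h =>
    intro n τ
    exact Projective.closed (h.preimage (continuous_pi fun i => continuous_apply (τ i)))
  | compl _ ih =>
    intro n τ
    exact (ih τ).compl
  | inter _ _ ih1 ih2 =>
    intro n τ
    exact (ih1 τ).inter (ih2 τ)
  | @proj m X _ ih =>
    intro n τ
    have h1 := (ih (Fin.snoc (fun i => (τ i).castSucc) (Fin.last n) : Fin (m + 1) → Fin (n + 1))).proj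
    convert h1 using 1
    ext x
    refine exists_congr fun a => ?_
    have e : (Fin.snoc (fun i => x (τ i)) a : Fin (m + 1) → (LaurentSeries (ZMod p))) = fun i =>
        (Fin.snoc x a : Fin (n + 1) → (LaurentSeries (ZMod p)))
          ((Fin.snoc (fun i => (τ i).castSucc) (Fin.last n) : Fin (m + 1) → Fin (n + 1)) i) := by
      funext i
      refine Fin.lastCases ?_ (fun j => ?_) i
      · simp
      · simp
    rw [e]
    rfl

theorem projective_const (n : ℕ) (q : Prop) : Projective p n {_x : Fin n → (LaurentSeries (ZMod p)) | q} := by
  by_cases h : q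
  · refine Projective.closed ?_
    simp [h]
  · refine Projective.closed ?_
    simp [h]

theorem cont_elim {n : ℕ} (s : Fin n ⊕ (LaurentSeries (ZMod p))) : Continuous fun x : Fin n → (LaurentSeries (ZMod p)) => Sum.elim x id s := by
  cases s with
  | inl k => exact continuous_apply k
  | inr c => exact continuous_const

theorem sat_projective {P : Set (LaurentSeries (ZMod p))} (hP : Projective p 1 {x | x 0 ∈ P}) (φ : Fm) :
    ∀ (n : ℕ) (τ : ℕ → Fin n ⊕ (LaurentSeries (ZMod p))),
      Projective p n {x | Sat P φ (fun j => Sum.elim x id (τ j))} := by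
  induction φ with
  | eq i j =>
    intro n τ
    exact Projective.closed (isClosed_eq (cont_elim _) (cont_elim _))
  | one i =>
    intro n τ
    exact Projective.closed (isClosed_eq (cont_elim _) continuous_const)
  | add i j k =>
    intro n τ
    exact Projective.closed (isClosed_eq ((cont_elim _).add (cont_elim _)) (cont_elim _))
  | mul i j k =>
    intro n τ
    exact Projective.closed (isClosed_eq ((cont_elim _).mul (cont_elim _)) (cont_elim _))
  | val i =>
    intro n τ
    cases h : τ i with
    | inl k =>
      have h1 := hP.pre (n := n) (fun _ => k)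
      convert h1 using 1
      ext x
      show Sum.elim x id (τ i) ∈ P ↔ _
      rw [h]
      rfl
    | inr c =>
      have h1 := projective_const (p := p) n (c ∈ P)
      convert h1 using 1
      ext x
      show Sum.elim x id (τ i) ∈ P ↔ _
      rw [h]
      rfl
  | neg φ ih =>
    intro n τ
    exact (ih n τ).compl
  | and φ ψ ih1 ih2 =>
    intro n τ
    exact (ih1 n τ).inter (ih2 n τ)
  | ex i φ ih =>
    intro n τ
    have h1 := (ih (n + 1) (fun j => if j = i then Sum.inl (Fin.last n) else
      Sum.map Fin.castSucc id (τ j))).proj
    convert h1 using 1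
    ext x
    refine exists_congr fun a => ?_
    have e : update (fun j => Sum.elim x id (τ j)) i a = fun j =>
        Sum.elim (Fin.snoc x a : Fin (n + 1) → (LaurentSeries (ZMod p))) id
          (if j = i then Sum.inl (Fin.last n) else Sum.map Fin.castSucc id (τ j)) := by
      funext j
      by_cases hj : j = i
      · subst hj
        simp
      · rw [update_of_ne hj, if_neg hj]
        cases τ j with
        | inl k => simp
        | inr c => simp
    rw [e]
    rfl

theorem definable_projective {P : Set (LaurentSeries (ZMod p))} (hP : Projective p 1 {x | x 0 ∈ P}) {n : ℕ}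
    {X : Set (Fin n → (LaurentSeries (ZMod p)))} (hX : Definable p P n X) : Projective p n X := by
  obtain ⟨φ, v, rfl⟩ := hX
  have h1 := sat_projective hP φ n (fun j => if h : j < n then Sum.inl ⟨j, h⟩ else Sum.inr (v j))
  convert h1 using 1
  ext x
  have e : (fun i : ℕ => if h : i < n then x ⟨i, h⟩ else v i) =
      fun j => Sum.elim x id (if h : j < n then Sum.inl ⟨j, h⟩ else Sum.inr (v j)) := by
    funext j
    by_cases h : j < n
    · simp [h]
    · simp [h]
  show Sat P φ _ ↔ Sat P φ _
  rw [e]

theorem valRing_projective : Projective p 1 {x : Fin 1 → (LaurentSeries (ZMod p)) | x 0 ∈ ValRing p} := by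
  refine Projective.closed ?_
  have h := (Valued.isClosed_integer (LaurentSeries (ZMod p))).preimage
    (continuous_apply (0 : Fin 1) : Continuous fun x : Fin 1 → (LaurentSeries (ZMod p)) => x 0)
  convert h using 1
  ext x
  exact Pool.Agent.Y697.UF.mem_OO (x 0)

/-- the dichotomy for `F_p((t))` with any unary predicate `P`; for the valued field the definable
sets are exactly the projective sets if it is not tame -/
theorem result (p : ℕ) [Fact p.Prime] (P : Set (LaurentSeries (ZMod p))) :
    (Tame p P ∧ ¬ Definable p P 1 {x | ∃ k : ℕ, x 0 = T p ^ k}) ∨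
    (¬ Tame p P ∧ (∀ n X, Projective p n X → Definable p P n X) ∧
      (∀ n : ℕ, ∃ φ : Fm, ∀ X : Set (Fin n → LaurentSeries (ZMod p)), IsClosed X →
        ∃ v, X = DSet p P φ n v) ∧
      (P = ValRing p → ∀ n X, Definable p P n X → Projective p n X)) := by
  by_cases h : Tame p P
  · exact Or.inl ⟨h, fun hd => not_tame_of_scattered powers_infinite powers_scattered hd h⟩
  · refine Or.inr ⟨h, fun n X hX => projective_definable h hX, fun n => closed_uniform h n, ?_⟩
    rintro rfl n X hX
    exact definable_projective valRing_projective hX

end Pool.Agent.Results.MP_db9079_lc.ProjectiveSets
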