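import Pool.Agent.Results.MP_db9079_lc.ProjectiveSets
import Pool.Agent.H87F.Qh2

/-!
# MP_db9079_lc: bounded quantifier complexity implies uniform finiteness in F_p((t))

Write `K` for the field `F_p((t))`, with the valuation or with any other unary predicate `P`, and
`Tame` for the conclusions of the starting result `UniformFiniteness`: the finite sets in a
definable family have a bounded number of elements, and scattered definable sets are finite.

The usual way to decide the theory of a field like `K` is to show that it has quantifier
elimination, or is model complete, in a language with some definable predicates (Macintyre's theorem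
for `Q_p`).  If the predicates have bounded complexity then all formulas are equivalent to formulas
with a bounded number of blocks of quantifiers.  We show that this, for the structure `(K, P)` and
even with parameters, implies that `(K, P)` is tame: if `(K, P)` is not tame then for every `n`
there is a definable subset of `K` which is not definable by a `Σ_n` formula with parameters.

Proof.  If `(K, P)` is not tame then the set of the powers of `t` is definable with parameters
(`ProjectiveSets`), and so all sequences of elements of `K` are coded by pairs of elements; the
number `n` is represented by `t ^ (4 ^ n)`, and all relations between numbers are definable with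
parameters, for example those of the syntax of the formulas.  The truth of quantifier-free formulas
under coded assignments is definable: there is a (coded) set of numbers which satisfies Tarski's
conditions.  If the truth of the `Σ_n` formulas under coded assignments is definable then so is the
truth of the `Σ_(n+1)` formulas `∃ x_i, ..., ∃ x_j, ¬ ψ`: there is a code of an assignment which
differs from the given one only at the variables `x_i, ..., x_j`, and which makes `ψ` false.
Finally the diagonal `{c | the Σ_n formula coded by c, with the parameters coded by c, is false at
c}` is definable, but not by a `Σ_n` formula with parameters.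
-/

set_option autoImplicit false

namespace Pool.Agent.Results.MP_db9079_lc.QuantifierHierarchy

open Pool.Agent.Y924.EL
open Pool.Agent.Results.MP_db9079_lc.UniformFiniteness
open Function

/-- quantifier-free formulas -/
def QuantFree : Fm → Prop
  | .eq _ _ => True
  | .one _ => True
  | .add _ _ _ => True
  | .mul _ _ _ => True
  | .val _ => True
  | .neg φ => QuantFree φ
  | .and φ ψ => QuantFree φ ∧ QuantFree ψ
  | .ex _ _ => False

/-- the formula `∃ x_i, ..., ∃ x_j, φ`, where `i, ..., j` are the members of the list -/
def exBlock (l : List ℕ) (φ : Fm) : Fm := l.foldr Fm.ex φ

/-- `Σ_n` formulas: the `Σ_0` formulas are the quantifier-free formulas, and the `Σ_(n+1)` formulas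
are the formulas `∃ x_i, ..., ∃ x_j, ¬ ψ` with a `Σ_n` formula `ψ`.  (For `n ≥ 1` the formulas
with polynomials as terms give nothing more, since `x_i + x_j = x_k` and `x_i x_j = x_k` are atomic
formulas.) -/
def IsSigma : ℕ → Fm → Prop
  | 0, φ => QuantFree φ
  | n + 1, φ => ∃ (l : List ℕ) (ψ : Fm), IsSigma n ψ ∧ φ = exBlock l (.neg ψ)

/-- the set `X` is definable, with parameters, in the field `F_p((t))` with the predicate `P` -/
def Definable (p : ℕ) [Fact p.Prime] (P X : Set (LaurentSeries (ZMod p))) : Prop :=
  ∃ (φ : Fm) (v : ℕ → LaurentSeries (ZMod p)), X = Dfn p P φ v

/-- the set `X` is definable by a `Σ_n` formula with parameters -/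
def SigmaDefinable (p : ℕ) [Fact p.Prime] (P : Set (LaurentSeries (ZMod p))) (n : ℕ)
    (X : Set (LaurentSeries (ZMod p))) : Prop :=
  ∃ (φ : Fm) (v : ℕ → LaurentSeries (ZMod p)), IsSigma n φ ∧ X = Dfn p P φ v

theorem quantFree_iff (φ : Fm) : QuantFree φ ↔ Pool.Agent.H87F.Qf φ := by
  induction φ with
  | neg φ ih => exact ih
  | and φ ψ ih1 ih2 => exact and_congr ih1 ih2
  | _ => exact Iff.rfl

theorem isSigma_iff (n : ℕ) : ∀ φ : Fm, IsSigma n φ ↔ Pool.Agent.H87F.Sig n φ := by
  induction n with
  | zero => exact quantFree_iff
  | succ n ih =>
    intro φ
    exact exists_congr fun l => exists_congr fun ψ => and_congr (ih ψ) Iff.rfl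

/-- Either the field `F_p((t))` with the predicate `P` (for `P = ValRing p`, the valued field) is
tame, or for every `n` some definable set is not `Σ_n`-definable, even with parameters. -/
theorem result (p : ℕ) [Fact p.Prime] (P : Set (LaurentSeries (ZMod p))) :
    Tame p P ∨ ∀ n : ℕ, ∃ X : Set (LaurentSeries (ZMod p)),
      Definable p P X ∧ ¬ SigmaDefinable p P n X := by
  by_cases h : Tame p P
  · exact Or.inl h
  · refine Or.inr fun n => ?_
    obtain ⟨φ, v, h1⟩ := Pool.Agent.H87F.hierarchy
      (Pool.Agent.Results.MP_db9079_lc.ProjectiveSets.isT_of_not_tame h) n
    refine ⟨Dfn p P φ v, ⟨φ, v, rfl⟩, ?_⟩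
    rintro ⟨ψ, w, h2, h3⟩
    exact h1 ψ w ((isSigma_iff n ψ).1 h2) h3.symm

end Pool.Agent.Results.MP_db9079_lc.QuantifierHierarchy
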