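import Pool.Agent.Results.MP_db9079_lc.ProjectiveSets
import Pool.Agent.H87F.Real

/-!
# MP_db9079_lc: uniform finiteness in F_p((t)), or second-order arithmetic is reducible to its theory

Write `K` for the field `F_p((t))`, with the valuation or with any other unary predicate `P`, and
`Tame` for the conclusions of the starting result `UniformFiniteness`.  There true (first-order)
arithmetic is reduced to the theory of `(K, P)` if `(K, P)` is not tame.  Here full second-order
arithmetic, the theory of `ℕ` with `+`, `·` and all sets of natural numbers, is reduced to it.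

Proof.  If `(K, P)` is not tame then `{1, t, t ^ 2, ...}` is definable and sequences of elements of
`K` are coded by elements of `K` (see `ProjectiveSets`).  So there is a formula which defines all
countable subsets of `K`, if its parameters vary, and there are formulas which define, for suitable
values of the parameters, a structure isomorphic to full second-order arithmetic: the numbers are
`t ^ (4 ^ k)`, and the elements of `K` code the sets of numbers by their digits.  The values of the
parameters for which the formulas define such a structure are definable without parameters: the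
axioms of second-order arithmetic, with induction and comprehension for all countable subsets of
`K`, characterize it.
-/

set_option autoImplicit false

namespace Pool.Agent.Results.MP_db9079_lc.SecondOrderArithmetic

open Pool.Agent.Y924.EL
open Pool.Agent.Results.MP_db9079_lc.UniformFiniteness
open Pool.Agent.H87F
open Function

/-- full second-order arithmetic is many-one reducible to the theory of `F_p((t))` with the unary
predicate `P`, by a primitive recursive function: `F` maps the codes of the closed formulas of
second-order arithmetic which are true in full second-order arithmetic to codes of sentences which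
are true in the field, and the codes of the other closed formulas to numbers which are not codes of
such sentences -/
def SecondOrder (p : ℕ) [Fact p.Prime] (P : Set (LaurentSeries (ZMod p))) : Prop :=
  ∃ F : ℕ → ℕ, Primrec F ∧ ∀ ψ : Fm2, ψ.fvN = ∅ → ψ.fvS = ∅ →
    ((∀ (x : ℕ → ℕ) (X : ℕ → Set ℕ), Sat2 ψ x X) ↔ InTh p P (F ψ.code))

open Pool.Agent.Y924.UF (Below exR exRc)

variable {p : ℕ} [hp : Fact p.Prime]

theorem asg_asg {K : Type} (a b c x y z : K) (v : ℕ → K) :
    asg a b c (asg x y z v) = asg a b c v := by
  funext i
  simp only [asg]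
  split_ifs <;> rfl

theorem below_mono {V W : ℕ} (h : V ≤ W) : ∀ {φ : Fm}, Below V φ → Below W φ := by
  intro φ
  induction φ with
  | eq i j => intro hb; exact ⟨hb.1.trans_le h, hb.2.trans_le h⟩
  | one i => intro hb; exact lt_of_lt_of_le hb h
  | add i j k => intro hb; exact ⟨hb.1.trans_le h, hb.2.1.trans_le h, hb.2.2.trans_le h⟩
  | mul i j k => intro hb; exact ⟨hb.1.trans_le h, hb.2.1.trans_le h, hb.2.2.trans_le h⟩
  | val i => intro hb; exact lt_of_lt_of_le hb h
  | neg φ ih => intro hb; exact ih hb
  | and φ ψ ih1 ih2 => intro hb; exact ⟨ih1 hb.1, ih2 hb.2⟩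
  | ex i φ ih => intro hb; exact ⟨hb.1.trans_le h, ih hb.2⟩

theorem secondOrder_of {P : Set (LaurentSeries (ZMod p))} (hT : Df1 P (isT (p := p))) :
    SecondOrder p P := by
  obtain ⟨φ, ⟨u0, hu0⟩, hC⟩ := exists_struct hT
  obtain ⟨θ, t0, t1, t2, t3, t4⟩ := exists_theta (P := P) φ
  obtain ⟨G, hG⟩ := D0.gd (P := P) φ
  have hG' : ∀ v : ℕ → LaurentSeries (ZMod p), Gd (SS P φ v) (SA P φ v) (SM P φ v) (SE P φ v)
      (fun w : ℕ → LaurentSeries (ZMod p) => SV P φ w) ↔ Sat P G v := hG
  obtain ⟨V, hV⟩ := below_all G
  choose U hU using fun i => below_all (θ i)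
  obtain ⟨M, hM⟩ : ∃ M, M = 3 + V + U 0 + U 1 + U 2 + U 3 + U 4 := ⟨_, rfl⟩
  have hGM : Below M G := below_mono (by omega) hV
  have hθM : ∀ i, i < 5 → Below M (θ i) := by
    intro i hi
    obtain rfl | rfl | rfl | rfl | rfl : i = 0 ∨ i = 1 ∨ i = 2 ∨ i = 3 ∨ i = 4 := by omega
    all_goals exact below_mono (by omega) (hU _)
  obtain ⟨F, hF, hFc⟩ := tr2_code θ M
  refine ⟨fun m => exRc 0 M (Nat.pair 6 (Nat.pair G.code (F m))), ?_, fun ψ h1 h2 => ?_⟩
  · exact (Pool.Agent.Y151.UF.t_CMPB.2.1 0 M).comp (prim_pair (Primrec.const 6)
      (prim_pair (Primrec.const _) hF))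
  have hcode : (exR 0 M (.and G (tr2 θ M ψ))).code =
      exRc 0 M (Nat.pair 6 (Nat.pair G.code (F ψ.code))) := by
    rw [Pool.Agent.Y151.UF.t_CMPB.1, hFc]
    rfl
  -- the meaning of the translation for good parameters
  have key : ∀ v0 : ℕ → LaurentSeries (ZMod p), Sat P G v0 → ∀ (x : ℕ → ℕ) (X : ℕ → Set ℕ),
      (Sat P (tr2 θ M ψ) v0 ↔ Sat2 ψ x X) := by
    intro v0 hv0 x X
    obtain ⟨ν, hν⟩ := ((hG' v0).2 hv0).std hC
    have hs : ∀ i, i < 5 → ∀ x y z (v : ℕ → LaurentSeries (ZMod p)),
        (∀ j, 3 ≤ j → j < M → v j = v0 j) →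
        (Sat P (θ i) (asg x y z v) ↔ Sat P (θ i) (asg x y z v0)) := by
      intro i hi x y z v hv
      refine Pool.Agent.Y924.UF.sat_agree P (θ i) (hθM i hi) _ _ fun j hj => ?_
      simp only [asg]
      by_cases hj3 : 3 ≤ j
      · rw [hv j hj3 hj]
      · split_ifs <;> first | rfl | omega
    refine sat_tr2 P θ M (by omega) v0 (fun i x y z => Sat P (θ i) (asg x y z v0)) hs ν hν.inj
      ?_ ?_ ?_ ?_ ?_ ψ v0 x X (fun i _ => rfl) (by simp [h1]) (by simp [h2])
    · intro k
      rw [t0]
      simp only [SS, asg_asg]
      exact hν.one k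
    · intro i j u
      rw [t1]
      simp only [SA, asg_asg]
      exact hν.add i j u
    · intro i j u
      rw [t2]
      simp only [SM, asg_asg]
      exact hν.mul i j u
    · intro B
      obtain ⟨s, hs⟩ := hν.com B
      refine ⟨s, fun k => ?_⟩
      rw [t3]
      simp only [SE, asg_asg]
      exact hs k
    · intro x
      rw [t4]
      simp only [SS, asg_asg]
      exact hν.dom x
  have hexr := fun v : ℕ → LaurentSeries (ZMod p) => Pool.Agent.Y151.UF.t_EXR
    (LaurentSeries (ZMod p)) P 0 M (.and G (tr2 θ M ψ)) v
  constructor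
  · intro h
    refine ⟨_, hcode, ?_, fun v => ?_⟩
    · rw [Finset.eq_empty_iff_forall_notMem]
      intro i hi
      have h3 := Pool.Agent.Y286.UF.fv_exR 0 (.and G (tr2 θ M ψ)) M hi
      obtain ⟨h3, h4⟩ := h3
      simp only [Fm.fv, Finset.mem_union] at h3
      rcases h3 with h3 | h3
      · have := fv_below hGM i h3
        omega
      · rcases fv_tr2 hθM ψ i h3 with h5 | ⟨j, h5, -⟩ | ⟨j, h5, -⟩
        · omega
        · rw [h1] at h5
          simp at h5
        · rw [h2] at h5
          simp at h5
    · rw [hexr]
      have hag : ∀ i, i < M → (fun j => if j < M then u0 j else v j) i = u0 i := by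
        intro i hi
        simp only [hi, if_true]
      have hGu : Sat P G (fun j => if j < M then u0 j else v j) :=
        (Pool.Agent.Y924.UF.sat_agree P G hGM _ _ hag).2 ((hG' u0).1 hu0)
      refine ⟨fun j => if j < M then u0 j else v j, ?_, hGu, ?_⟩
      · intro j hj
        have : ¬ j < M := by omega
        simp only [this, if_false]
      · exact (key _ hGu (fun _ => 0) (fun _ => ∅)).2 (h _ _)
  · rintro ⟨χ, hχ, -, h3⟩ x X
    replace hχ := hχ.trans hcode.symm
    have h4 := Pool.Agent.Y988.UF.t_CINJ _ _ hχ
    have h5 := h3 0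
    rw [h4, hexr] at h5
    obtain ⟨w, -, h6, h7⟩ := h5
    exact (key w h6 x X).1 h7

/-- If the field `F_p((t))` with the unary predicate `P` (for instance the valued field) has not
uniform finiteness then full second-order arithmetic is reducible to its theory. -/
theorem result (p : ℕ) [Fact p.Prime] (P : Set (LaurentSeries (ZMod p))) :
    Tame p P ∨ SecondOrder p P := by
  by_cases h : Tame p P
  · exact Or.inl h
  · exact Or.inr (secondOrder_of (ProjectiveSets.isT_of_not_tame h))

end Pool.Agent.Results.MP_db9079_lc.SecondOrderArithmetic
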